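import Mathlib
import Pool.Agent.Q212.HyperNormal

/-!
# The hyperplane integral condition does not characterise the normal density
-/

namespace Pool.Agent.Results.MP_d643ae_pr.NotNormal

open MeasureTheory
open Pool.Agent.Q212.HyperNormal

/-- For every `n ≥ 3` and every constant `c` there are probability densities `f`, `g`, with `g > 0`
everywhere, satisfying the condition `(∗)` on the hyperplane `x_1 + ... + x_n = 0`, such that `f` is
not almost everywhere equal to a normal density; `f` can be taken positive and analytic. -/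
theorem result : ∀ n : ℕ, 3 ≤ n → ∀ c : ℝ, ∃ f g : ℝ → ℝ, IsDensity f ∧ IsDensity g ∧
    (∀ x, 0 < g x) ∧ Star f g n c ∧ (∀ x, 0 < f x) ∧ ContDiff ℝ ⊤ f ∧
    ¬ ∃ a σ : ℝ, 0 < σ ∧ f =ᵐ[volume] normal a σ :=
  fun n hn c => main n (by omega) c

end Pool.Agent.Results.MP_d643ae_pr.NotNormal
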